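import Mathlib

set_option autoImplicit false

namespace Pool.Agent.P.MP_ed8104_gt

open Set Filter Topology TopologicalSpace

universe u

variable {Y : Type u}

/-- closing a countable set under a countably-valued operation on finite sets -/
theorem exists_closed_countable (Ψ : Finset Y → Set Y) (hΨ : ∀ G, (Ψ G).Countable) :
    ∃ Z : Set Y, Z.Countable ∧ ∀ G : Finset Y, (G : Set Y) ⊆ Z → Ψ G ⊆ Z := by
  have hc : ∀ Z : Set Y, Z.Countable → {G : Finset Y | (G : Set Y) ⊆ Z}.Countable := by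
    intro Z hZ
    have := countable_ofPred_finite_subset hZ
    apply Set.Countable.mono _ (this.preimage Finset.coe_injective)
    intro G hG
    exact ⟨G.finite_toSet, hG⟩
  let step : Set Y → Set Y := fun Z => Z ∪ ⋃ G ∈ {G : Finset Y | (G : Set Y) ⊆ Z}, Ψ G
  let Z : ℕ → Set Y := fun n => step^[n] ∅
  have hZs : ∀ n, Z (n + 1) = step (Z n) := fun n => Function.iterate_succ_apply' _ _ _
  have hZc : ∀ n, (Z n).Countable := by
    intro n
    induction n with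
    | zero => exact countable_empty
    | succ n ih =>
      rw [hZs]
      exact ih.union ((hc _ ih).biUnion fun G _ => hΨ G)
  have hmono : Monotone Z := monotone_nat_of_le_succ fun n => by
    rw [hZs]; exact subset_union_left
  refine ⟨⋃ n, Z n, countable_iUnion hZc, fun G hG => ?_⟩
  obtain ⟨n, hn⟩ : ∃ n, (G : Set Y) ⊆ Z n :=
    hmono.directed_le.exists_mem_subset_of_finset_subset_biUnion hG
  refine subset_trans ?_ (subset_iUnion Z (n + 1))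
  rw [hZs]
  exact subset_trans (subset_biUnion_of_mem (u := Ψ) (show G ∈ {G : Finset Y | (G : Set Y) ⊆ Z n}
    from hn)) subset_union_right

/-- a countable family of subsets of the line that interpolates between finite and open sets -/
theorem exists_network : ∃ 𝓑 : Set (Set ℝ), 𝓑.Countable ∧
    ∀ G O : Set ℝ, G.Finite → IsOpen O → G ⊆ O → ∃ B ∈ 𝓑, G ⊆ B ∧ B ⊆ O := by
  refine ⟨sUnion '' {t | t.Finite ∧ t ⊆ countableBasis ℝ},
    (countable_ofPred_finite_subset (countable_countableBasis ℝ)).image _, ?_⟩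
  intro G O hG hO hGO
  have : ∀ x : G, ∃ b ∈ countableBasis ℝ, (x : ℝ) ∈ b ∧ b ⊆ O := fun x =>
    (isBasis_countableBasis ℝ).exists_subset_of_mem_open (hGO x.2) hO
  choose b hb1 hb2 hb3 using this
  have := hG.to_subtype
  refine ⟨⋃₀ range b, ⟨range b, ⟨finite_range b, ?_⟩, rfl⟩, ?_, ?_⟩
  · rintro _ ⟨x, rfl⟩; exact hb1 x
  · intro x hx; exact ⟨b ⟨x, hx⟩, mem_range_self _, hb2 _⟩
  · rintro x ⟨_, ⟨y, rfl⟩, hx⟩; exact hb3 y hx

/-- basic sets -/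
def box (e : Y → ℝ) (F : Finset Y) (O C : Set ℝ) : Set (Finset Y) :=
  {H | F ⊆ H ∧ ∀ y ∈ H, e y ∈ O ∧ e y ∉ C}

/-- The Pixley-Roy type topology on the finite subsets of `Y`. -/
@[reducible] def prTop (e : Y → ℝ) : TopologicalSpace (Finset Y) where
  IsOpen U := ∀ H ∈ U, ∃ O C : Set ℝ, IsOpen O ∧ (closure C).Countable ∧ H ∈ box e H O C ∧
    box e H O C ⊆ U
  isOpen_univ := fun H _ => ⟨univ, ∅, isOpen_univ, by simp, by simp [box], subset_univ _⟩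
  isOpen_inter := by
    intro s t hs ht H hH
    obtain ⟨O, C, h1, h2, h3, h4⟩ := hs H hH.1
    obtain ⟨O', C', h1', h2', h3', h4'⟩ := ht H hH.2
    refine ⟨O ∩ O', C ∪ C', h1.inter h1', by rw [closure_union]; exact h2.union h2', ?_, ?_⟩
    · refine ⟨subset_rfl, fun y hy => ⟨⟨(h3.2 y hy).1, (h3'.2 y hy).1⟩, ?_⟩⟩
      rintro (h | h)
      · exact (h3.2 y hy).2 h
      · exact (h3'.2 y hy).2 h
    · intro K hK
      refine ⟨h4 ⟨hK.1, fun y hy => ⟨(hK.2 y hy).1.1, fun h => (hK.2 y hy).2 (Or.inl h)⟩⟩,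
        h4' ⟨hK.1, fun y hy => ⟨(hK.2 y hy).1.2, fun h => (hK.2 y hy).2 (Or.inr h)⟩⟩⟩
  isOpen_sUnion := by
    intro s hs H ⟨U, hU, hH⟩
    obtain ⟨O, C, h1, h2, h3, h4⟩ := hs U hU H hH
    exact ⟨O, C, h1, h2, h3, h4.trans (subset_sUnion_of_mem hU)⟩

theorem isOpen_pr_iff (e : Y → ℝ) (U : Set (Finset Y)) : IsOpen[prTop e] U ↔
    ∀ H ∈ U, ∃ O C : Set ℝ, IsOpen O ∧ (closure C).Countable ∧ H ∈ box e H O C ∧
      box e H O C ⊆ U := Iff.rfl

theorem isOpen_box (e : Y → ℝ) (F : Finset Y) {O C : Set ℝ} (hO : IsOpen O)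
    (hC : (closure C).Countable) : IsOpen[prTop e] (box e F O C) := by
  intro H hH
  exact ⟨O, C, hO, hC, ⟨subset_rfl, hH.2⟩, fun K hK => ⟨hH.1.trans hK.1, hK.2⟩⟩

theorem isOpen_compl_box {e : Y → ℝ} (he : Function.Injective e) (F : Finset Y) (O C : Set ℝ) :
    IsOpen[prTop e] (box e F O C)ᶜ := by
  intro H hH
  by_cases h : F ⊆ H
  · refine ⟨univ, ∅, isOpen_univ, by simp, by simp [box], fun K hK hK' => hH ⟨h, ?_⟩⟩
    exact fun y hy => hK'.2 y (hK.1 hy)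
  · obtain ⟨y, hyF, hyH⟩ := Finset.not_subset.1 h
    refine ⟨univ, {e y}, isOpen_univ, by simp, ⟨subset_rfl, fun z hz => ⟨trivial, ?_⟩⟩, ?_⟩
    · intro hz'
      exact hyH (he hz' ▸ hz)
    · intro K hK hK'
      exact (hK.2 y (hK'.1 hyF)).2 rfl

theorem t35 {e : Y → ℝ} (he : Function.Injective e) : @T35Space _ (prTop e) := by
  let := prTop e
  have h1 : CompletelyRegularSpace (Finset Y) := by
    apply CompletelyRegularSpace.of_isTopologicalBasis_clopens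
    apply isTopologicalBasis_of_isOpen_of_nhds (fun U hU => hU.2)
    intro H U hH hU
    obtain ⟨O, C, h1, h2, h3, h4⟩ := hU H hH
    exact ⟨box e H O C, ⟨⟨isOpen_compl_box he H O C⟩, isOpen_box e H h1 h2⟩, h3, h4⟩
  have h0 : T0Space (Finset Y) := by
    rw [t0Space_iff_inseparable]
    have key : ∀ F H : Finset Y, Inseparable F H → F ⊆ H := by
      intro F H h
      have := (h.mem_open_iff (isOpen_box e F isOpen_univ (C := ∅) (by simp))).1 (by simp [box])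
      exact this.1
    intro F H h
    exact Finset.Subset.antisymm (key F H h) (key H F h.symm)
  exact ⟨⟩

theorem weaklyLindelof {e : Y → ℝ} (he : Function.Injective e) (𝒰 : Set (Set (Finset Y)))
    (h𝒰 : ∀ U ∈ 𝒰, IsOpen[prTop e] U) (hcov : ⋃₀ 𝒰 = univ) :
    ∃ 𝒱 ⊆ 𝒰, 𝒱.Countable ∧ @Dense _ (prTop e) (⋃₀ 𝒱) := by
  classical
  let := prTop e
  have h1 : ∀ F : Finset Y, ∃ U ∈ 𝒰, ∃ O C : Set ℝ, IsOpen O ∧ (closure C).Countable ∧
      F ∈ box e F O C ∧ box e F O C ⊆ U := by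
    intro F
    obtain ⟨U, hU, hF⟩ : F ∈ ⋃₀ 𝒰 := hcov ▸ mem_univ F
    exact ⟨U, hU, h𝒰 U hU F hF⟩
  choose U hU O C hO hC hF hbox using h1
  obtain ⟨𝓑, h𝓑, hnet⟩ := exists_network
  -- the families that are reflected
  let P : Finset Y → Set ℝ → Finset Y → Prop := fun G B F =>
    G ⊆ F ∧ (∀ y ∈ F, e y ∈ B) ∧ B ⊆ O F
  have w1 : ∀ (G : Finset Y) (B B' : Set ℝ), ∃ F₀ : Finset Y,
      (∃ F, P G B F ∧ ∀ y ∈ F, y ∉ G → e y ∈ B') → P G B F₀ ∧ ∀ y ∈ F₀, y ∉ G → e y ∈ B' := by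
    intro G B B'
    by_cases h : ∃ F, P G B F ∧ ∀ y ∈ F, y ∉ G → e y ∈ B'
    · obtain ⟨F, hF⟩ := h
      exact ⟨F, fun _ => hF⟩
    · exact ⟨∅, fun h' => absurd h' h⟩
  choose F₀ hF₀ using w1
  have w2 : ∀ (G : Finset Y) (B : Set ℝ), ∃ Z₀ : Set Y, Z₀.Countable ∧
      ((∃ Z : Set Y, Z.Countable ∧ ∀ F, P G B F → ∃ y ∈ F, y ∉ G ∧ y ∈ Z) →
        ∀ F, P G B F → ∃ y ∈ F, y ∉ G ∧ y ∈ Z₀) := by
    intro G B
    by_cases h : ∃ Z : Set Y, Z.Countable ∧ ∀ F, P G B F → ∃ y ∈ F, y ∉ G ∧ y ∈ Z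
    · obtain ⟨Z, hZ, hZ'⟩ := h
      exact ⟨Z, hZ, fun _ => hZ'⟩
    · exact ⟨∅, countable_empty, fun h' => absurd h' h⟩
  choose Z₀ hZ₀ hZ₀' using w2
  obtain ⟨Z, hZc, hZ⟩ := exists_closed_countable
    (fun G => e ⁻¹' (C G) ∪ ((⋃ B ∈ 𝓑, ⋃ B' ∈ 𝓑, (F₀ G B B' : Set Y)) ∪ ⋃ B ∈ 𝓑, Z₀ G B)) (by
      intro G
      refine (((hC G).mono subset_closure).preimage he).union (Countable.union ?_ ?_)
      · exact h𝓑.biUnion fun B _ => h𝓑.biUnion fun B' _ => (F₀ G B B').countable_toSet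
      · exact h𝓑.biUnion fun B _ => hZ₀ G B)
  have hc : {G : Finset Y | (G : Set Y) ⊆ Z}.Countable := by
    have := countable_ofPred_finite_subset hZc
    apply Set.Countable.mono _ (this.preimage Finset.coe_injective)
    intro G hG
    exact ⟨G.finite_toSet, hG⟩
  refine ⟨U '' {G : Finset Y | (G : Set Y) ⊆ Z}, ?_, hc.image _, ?_⟩
  · rintro _ ⟨G, _, rfl⟩; exact hU G
  rw [dense_iff_inter_open]
  rintro W hW ⟨G, hG⟩
  obtain ⟨O', C', hO', hC', hG', hW'⟩ := hW G hG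
  let G₀ : Finset Y := G.filter (· ∈ Z)
  have hG₀Z : (G₀ : Set Y) ⊆ Z := fun y hy => (Finset.mem_filter.1 hy).2
  have hG₀G : G₀ ⊆ G := Finset.filter_subset _ _
  obtain ⟨B, hB, hGB, hBO⟩ := hnet (e '' G) (O' ∩ O G) (G.finite_toSet.image e)
    (hO'.inter (hO G)) (by
      rintro _ ⟨y, hy, rfl⟩
      exact ⟨(hG'.2 y hy).1, ((hF G).2 y hy).1⟩)
  have hPG : P G₀ B G := ⟨hG₀G, fun y hy => hGB ⟨y, hy, rfl⟩, hBO.trans inter_subset_right⟩
  -- some member of the family avoids the closure of C'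
  obtain ⟨F', hF', hF'K⟩ : ∃ F', P G₀ B F' ∧ ∀ y ∈ F', y ∉ G₀ → e y ∉ closure C' := by
    by_contra hcon
    push Not at hcon
    obtain ⟨y, hyG, hyG₀, hyZ⟩ := hZ₀' G₀ B ⟨e ⁻¹' closure C', hC'.preimage he, hcon⟩ G hPG
    apply hyG₀
    refine Finset.mem_filter.2 ⟨hyG, hZ G₀ hG₀Z (Or.inr (Or.inr ?_))⟩
    exact mem_biUnion hB hyZ
  obtain ⟨B', hB', hFB', hB'K⟩ := hnet (e '' ((F' \ G₀ : Finset Y) : Set Y)) (closure C')ᶜ
    ((F' \ G₀).finite_toSet.image e) isClosed_closure.isOpen_compl (by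
      rintro _ ⟨y, hy, rfl⟩
      have := Finset.mem_sdiff.1 hy
      exact hF'K y this.1 this.2)
  obtain ⟨hF1, hF2⟩ := hF₀ G₀ B B' ⟨F', hF', fun y hy hy' =>
    hFB' ⟨y, Finset.mem_sdiff.2 ⟨hy, hy'⟩, rfl⟩⟩
  set F := F₀ G₀ B B' with hFdef
  have hFZ : (F : Set Y) ⊆ Z := by
    intro y hy
    refine hZ G₀ hG₀Z (Or.inr (Or.inl ?_))
    exact mem_biUnion hB (mem_biUnion hB' hy)
  refine ⟨F ∪ G, hW' ⟨Finset.subset_union_right, fun y hy => ?_⟩,
    U F, ⟨F, hFZ, rfl⟩, hbox F ⟨Finset.subset_union_left, fun y hy => ?_⟩⟩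
  · rcases Finset.mem_union.1 hy with hy | hy
    · refine ⟨(hBO (hF1.2.1 y hy)).1, ?_⟩
      by_cases hy' : y ∈ G₀
      · exact (hG'.2 y (hG₀G hy')).2
      · exact fun h => hB'K (hF2 y hy hy') (subset_closure h)
    · exact hG'.2 y hy
  · rcases Finset.mem_union.1 hy with hy | hy
    · exact (hF F).2 y hy
    · refine ⟨hF1.2.2 (hGB ⟨y, hy, rfl⟩), ?_⟩
      by_cases hy' : y ∈ Z
      · exact ((hF F).2 y (hF1.1 (Finset.mem_filter.2 ⟨hy, hy'⟩))).2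
      · exact fun h => hy' (hZ F hFZ (Or.inl h))

theorem not_weaklyMenger [Uncountable Y] {e : Y → ℝ} (he : Function.Injective e) :
    ∃ 𝒰 : ℕ → Set (Set (Finset Y)),
      (∀ n, (∀ U ∈ 𝒰 n, IsOpen[prTop e] U) ∧ ⋃₀ 𝒰 n = univ) ∧
      ∀ 𝒱 : ℕ → Set (Set (Finset Y)), (∀ n, 𝒱 n ⊆ 𝒰 n ∧ (𝒱 n).Finite) →
        ¬ @Dense _ (prTop e) (⋃ n, ⋃₀ 𝒱 n) := by
  classical
  let := prTop e
  let O : ℕ → Finset Y → Set ℝ := fun n F => ⋃ y ∈ F, Metric.ball (e y) (1 / ((n : ℝ) + 1))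
  have hO : ∀ n F, IsOpen (O n F) := fun n F => isOpen_biUnion fun _ _ => Metric.isOpen_ball
  refine ⟨fun n => (fun F => box e F (O n F) ∅) '' univ, fun n => ⟨?_, ?_⟩, ?_⟩
  · rintro _ ⟨F, _, rfl⟩
    exact isOpen_box e F (hO n F) (by simp)
  · apply eq_univ_of_forall
    intro F
    refine ⟨_, ⟨F, trivial, rfl⟩, subset_rfl, fun y hy => ⟨?_, notMem_empty _⟩⟩
    exact mem_biUnion hy (Metric.mem_ball_self Nat.one_div_pos_of_nat)
  intro 𝒱 h𝒱 hd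
  have : ∀ n, ∃ A : Set (Finset Y), A.Finite ∧ 𝒱 n = (fun F => box e F (O n F) ∅) '' A := by
    intro n
    obtain ⟨A, _, hA, hA'⟩ := (exists_subset_image_finite_and (p := fun t => t = 𝒱 n)).1
      ⟨𝒱 n, (h𝒱 n).1, (h𝒱 n).2, rfl⟩
    exact ⟨A, hA, hA'.symm⟩
  choose A hA hA' using this
  let S : ℕ → Set Y := fun n => ⋃ F ∈ A n, (F : Set Y)
  have hS : ∀ n, (S n).Finite := fun n => (hA n).biUnion fun F _ => F.finite_toSet
  have hSc : (⋃ n, S n).Countable := countable_iUnion fun n => (hS n).countable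
  obtain ⟨y', hy'⟩ : ∃ y', y' ∉ ⋃ n, S n := by
    by_contra h
    push Not at h
    exact not_countable_univ (hSc.mono fun y _ => h y)
  let C : Set ℝ := {z | ∃ n, ∃ y ∈ S n, z = e y ∧ dist z (e y') < 1 / ((n : ℝ) + 1)}
  have hC : (closure C).Countable := by
    refine ((hSc.image e).insert (e y')).mono fun z hz => ?_
    by_cases hzy : z = e y'
    · exact Or.inl hzy
    right
    obtain ⟨N, hN⟩ := exists_nat_one_div_lt (dist_pos.2 hzy)
    have hsub : C ⊆ e '' (⋃ n ∈ Iio N, S n) ∪ Metric.closedBall (e y') (1 / ((N : ℝ) + 1)) := by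
      rintro z ⟨n, y, hy, rfl, hd⟩
      by_cases hn : n < N
      · exact Or.inl ⟨y, mem_biUnion hn hy, rfl⟩
      · right
        rw [Metric.mem_closedBall]
        exact hd.le.trans (Nat.one_div_le_one_div (not_lt.1 hn))
    have hcl : IsClosed (e '' (⋃ n ∈ Iio N, S n) ∪
        Metric.closedBall (e y') (1 / ((N : ℝ) + 1))) :=
      (((finite_Iio N).biUnion fun n _ => hS n).image e).isClosed.union Metric.isClosed_closedBall
    rcases closure_minimal hsub hcl hz with ⟨y, hy, rfl⟩ | h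
    · obtain ⟨n, _, hn⟩ := mem_iUnion₂.1 hy
      exact ⟨y, mem_iUnion.2 ⟨n, hn⟩, rfl⟩
    · exact absurd (Metric.mem_closedBall.1 h) (not_le.2 hN)
  have hne : (box e {y'} univ C).Nonempty := by
    refine ⟨{y'}, subset_rfl, fun y hy => ⟨trivial, ?_⟩⟩
    rw [Finset.mem_singleton.1 hy]
    rintro ⟨n, y, hy, h, _⟩
    exact hy' (mem_iUnion.2 ⟨n, he h ▸ hy⟩)
  obtain ⟨H, hH, hH'⟩ := hd.inter_open_nonempty _ (isOpen_box e {y'} isOpen_univ hC) hne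
  obtain ⟨n, W, hW, hHW⟩ := mem_iUnion.1 hH'
  rw [hA' n] at hW
  obtain ⟨F, hF, rfl⟩ := hW
  have h1 := (hHW.2 y' (hH.1 (Finset.mem_singleton_self y'))).1
  obtain ⟨y, hy, hyy⟩ := mem_iUnion₂.1 h1
  refine (hH.2 y (hHW.1 hy)).2 ⟨n, y, mem_biUnion hF hy, rfl, ?_⟩
  rw [dist_comm]
  exact hyy

end Pool.Agent.P.MP_ed8104_gt
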